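import Mathlib

set_option autoImplicit false

namespace Pool.Agent.H.MP_598d44_co

open Finset

variable {V : Type} [DecidableEq V]

/-- a matching in the relation R inside U, as a partial involution. -/
structure Mt (R : V → V → Prop) (U : Finset V) (s : ℕ) (f : V → V) : Prop where
  inv : ∀ x, f (f x) = x
  rel : ∀ x, f x ≠ x → x ∈ U ∧ R x (f x)
  card : #{x ∈ U | f x ≠ x} = 2 * s

/-- delete the edge at a. -/
def del (f : V → V) (a : V) : V → V := fun x => if x = a ∨ x = f a then x else f x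

/-- add the edge c d. -/
def add (f : V → V) (c d : V) : V → V := fun x => if x = c then d else if x = d then c else f x

lemma Mt.del {R : V → V → Prop} {U : Finset V} {s : ℕ} {f : V → V} (h : Mt R U (s + 1) f) {a : V}
    (ha : f a ≠ a) : Mt R U s (del f a) ∧ ∀ x, del f a x ≠ x ↔ f x ≠ x ∧ x ≠ a ∧ x ≠ f a := by
  have k : ∀ x, MP_598d44_co.del f a x ≠ x ↔ f x ≠ x ∧ x ≠ a ∧ x ≠ f a := by
    intro x
    unfold MP_598d44_co.del
    split_ifs with e <;> tauto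
  refine ⟨⟨fun x => ?_, fun x hx => ?_, ?_⟩, k⟩
  · unfold MP_598d44_co.del
    have := h.inv x
    have := h.inv a
    grind
  · have := (k x).1 hx
    have e : MP_598d44_co.del f a x = f x := if_neg (by tauto)
    rw [e]
    exact h.rel x this.1
  · have : {x ∈ U | MP_598d44_co.del f a x ≠ x} = (({x ∈ U | f x ≠ x}).erase a).erase (f a) := by
      ext x
      simp only [mem_filter, mem_erase, k]
      tauto
    have h2 : f (f a) ≠ f a := by rw [h.inv]; exact ha.symm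
    have m1 : a ∈ {x ∈ U | f x ≠ x} := mem_filter.2 ⟨(h.rel _ ha).1, ha⟩
    have m2 : f a ∈ ({x ∈ U | f x ≠ x}).erase a :=
      mem_erase.2 ⟨ha, mem_filter.2 ⟨(h.rel _ h2).1, h2⟩⟩
    rw [this, card_erase_of_mem m2, card_erase_of_mem m1, h.card]
    omega

lemma Mt.add {R : V → V → Prop} (sy : ∀ x y, R x y → R y x) {U : Finset V} {s : ℕ} {f : V → V}
    (h : Mt R U s f) {c d : V} (hc : f c = c) (hd : f d = d) (cd : c ≠ d) (cu : c ∈ U) (du : d ∈ U)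
    (r : R c d) : Mt R U (s + 1) (add f c d) ∧ ∀ x, add f c d x ≠ x ↔ f x ≠ x ∨ x = c ∨ x = d := by
  have k : ∀ x, MP_598d44_co.add f c d x ≠ x ↔ f x ≠ x ∨ x = c ∨ x = d := by
    intro x
    unfold MP_598d44_co.add
    grind
  refine ⟨⟨fun x => ?_, fun x hx => ?_, ?_⟩, k⟩
  · unfold MP_598d44_co.add
    have := h.inv x
    have := h.inv c
    grind
  · unfold MP_598d44_co.add at hx ⊢
    split_ifs at hx ⊢ with e e'
    · exact ⟨e ▸ cu, e ▸ r⟩
    · exact ⟨e' ▸ du, e' ▸ sy _ _ r⟩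
    · exact h.rel x hx
  · have : {x ∈ U | MP_598d44_co.add f c d x ≠ x} = insert c (insert d {x ∈ U | f x ≠ x}) := by
      ext x
      simp only [mem_filter, mem_insert, k]
      grind
    rw [this, card_insert_of_notMem (by simp [cd, hc]), card_insert_of_notMem (by simp [hd]), h.card]
    omega

lemma Mt.mono {R : V → V → Prop} {U U' : Finset V} {s : ℕ} {f : V → V} (h : Mt R U s f)
    (hU : ∀ x, f x ≠ x → x ∈ U') : Mt R U' s f := by
  refine ⟨h.inv, fun x hx => ⟨hU x hx, (h.rel x hx).2⟩, ?_⟩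
  rw [← h.card]
  congr 1
  ext x
  simp only [mem_filter]
  exact ⟨fun e => ⟨(h.rel x e.2).1, e.2⟩, fun e => ⟨hU x e.2, e.2⟩⟩

lemma four (c : V → V → Fin 3) (sy : ∀ x y, c x y = c y x) (U : Finset V) (hU : 2 ≤ #U) :
    ∃ Q ⊆ U, #Q ≤ 4 ∧ ∀ x ∈ U, ∀ y ∈ U, x ≠ y → ∃ a ∈ Q, ∃ b ∈ Q, a ≠ b ∧ c a b = c x y := by
  obtain ⟨x0, hx0, y0, hy0, n0⟩ := one_lt_card.1 (show 1 < #U by omega)
  by_cases h1 : ∀ x ∈ U, ∀ y ∈ U, x ≠ y → c x0 y0 = c x y
  · exact ⟨{x0, y0}, insert_subset hx0 (singleton_subset_iff.2 hy0), card_le_two.trans (by omega),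
      fun x hx y hy n => ⟨x0, by simp, y0, by simp, n0, h1 x hx y hy n⟩⟩
  have : ∃ v ∈ U, ∃ a ∈ U, ∃ b ∈ U, v ≠ a ∧ v ≠ b ∧ c v a ≠ c v b := by
    push Not at h1
    obtain ⟨x, hx, y, hy, n, e⟩ := h1
    by_cases p : x = x0
    · exact ⟨x, hx, y0, hy0, y, hy, p ▸ n0, n, p ▸ e⟩
    by_cases q : c x x0 = c x y
    · exact ⟨x0, hx0, y0, hy0, x, hx, n0, Ne.symm p, by rwa [sy x0 x, q]⟩
    · exact ⟨x, hx, x0, hx0, y, hy, p, n, q⟩
  obtain ⟨v, hv, a, ha, b, hb, va, vb, e⟩ := this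
  have fin : ∀ p ∈ U, ∀ q ∈ U, ∀ r ∈ U, ∀ t ∈ U, ∀ z ∈ ({p, q, r, t} : Finset V),
      ∀ w ∈ ({p, q, r, t} : Finset V), p ≠ q → p ≠ r → z ≠ w → c p q ≠ c p r → c z w ≠ c p q →
      c z w ≠ c p r → ∃ Q ⊆ U, #Q ≤ 4 ∧ ∀ x ∈ U, ∀ y ∈ U, x ≠ y →
        ∃ a ∈ Q, ∃ b ∈ Q, a ≠ b ∧ c a b = c x y := by
    intro p hp q hq r hr t ht z hz w hw a1 a2 a3 b1 b2 b3
    refine ⟨{p, q, r, t}, by simp [insert_subset_iff, *], card_le_four, fun x _ y _ _ => ?_⟩
    have : c p q = c x y ∨ c p r = c x y ∨ c z w = c x y := by omega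
    rcases this with h | h | h
    · exact ⟨p, by simp, q, by simp, a1, h⟩
    · exact ⟨p, by simp, r, by simp, a2, h⟩
    · exact ⟨z, hz, w, hw, a3, h⟩
  by_cases h2 : ∀ x ∈ U, ∀ y ∈ U, x ≠ y → c v a = c x y ∨ c v b = c x y
  · refine ⟨{v, a, b}, by simp [insert_subset_iff, *], card_le_three.trans (by omega),
      fun x hx y hy n => ?_⟩
    rcases h2 x hx y hy n with h | h
    · exact ⟨v, by simp, a, by simp, va, h⟩
    · exact ⟨v, by simp, b, by simp, vb, h⟩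
  push Not at h2
  obtain ⟨x, hx, y, hy, n, e1, e2⟩ := h2
  by_cases p : v = x
  · exact fin v hv a ha b hb y hy x (by simp [p]) y (by simp) va vb n e e1.symm e2.symm
  by_cases q : c v x = c v a
  · exact fin v hv x hx b hb y hy x (by simp) y (by simp) p vb n (q ▸ e) (q ▸ e1.symm) e2.symm
  by_cases r : c v x = c v b
  · exact fin v hv a ha x hx y hy x (by simp) y (by simp) va p n (r ▸ e) e1.symm (r ▸ e2.symm)
  · exact fin v hv a ha b hb x hx v (by simp) x (by simp) va vb p e q r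

/-- Ramsey number of three matchings. -/
theorem ram (c : V → V → Fin 3) (sy : ∀ x y, c x y = c y x) (s : ℕ) :
    ∀ U : Finset V, 4 * s ≤ #U + 2 → ∃ i f, Mt (fun x y => c x y = i) U s f := by
  induction s with
  | zero => exact fun U _ => ⟨0, id, fun _ => rfl, fun x h => absurd rfl h, by simp⟩
  | succ s ih =>
    intro U hU
    obtain ⟨Q, q1, q2, q3⟩ := four c sy U (by omega)
    rcases Nat.eq_zero_or_pos s with rfl | hs
    · obtain ⟨x, hx, y, hy, xy⟩ := one_lt_card.1 (show 1 < #U by omega)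
      exact ⟨c x y, _, (Mt.add (f := id) (s := 0) (fun a b e => (sy b a).trans e)
        ⟨fun _ => rfl, fun x h => absurd rfl h, by simp⟩ rfl rfl xy hx hy rfl).1⟩
    obtain ⟨i, f, hf⟩ := ih (U \ Q) (by have := card_sdiff_of_subset q1; omega)
    obtain ⟨x, hx⟩ := card_pos.1 (show 0 < #{x ∈ U \ Q | f x ≠ x} by rw [hf.card]; omega)
    have x2 := (mem_filter.1 hx).2
    have x3 : f (f x) ≠ f x := by rw [hf.inv]; exact x2.symm
    obtain ⟨a, ha, b, hb, ab, e⟩ := q3 x (mem_sdiff.1 (hf.rel x x2).1).1 (f x)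
      (mem_sdiff.1 (hf.rel _ x3).1).1 x2.symm
    have fx : ∀ a ∈ Q, f a = a := fun a ha => by_contra fun n => (mem_sdiff.1 (hf.rel a n).1).2 ha
    exact ⟨i, _, (Mt.add (fun a b e => (sy b a).trans e)
      (hf.mono fun x h => (mem_sdiff.1 (hf.rel x h).1).1) (fx a ha) (fx b hb) ab (q1 ha) (q1 hb)
      (e.trans (hf.rel x x2).2)).1⟩

/-- one exchange step. -/
def Good (R : V → V → Prop) (U : Finset V) (s : ℕ) : Prop :=
  ∃ x ∈ U, ∃ y ∈ U, ∃ z ∈ U, x ≠ y ∧ y ≠ z ∧ ((R x y ∧ ¬ R y z) ∨ (¬ R x y ∧ R y z)) ∧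
    (∃ f, Mt R (U \ {x, y, z}) s f) ∧ ∃ g, Mt (fun a b => ¬ R a b) (U \ {x, y, z}) s g

lemma Good.neg {R : V → V → Prop} {U : Finset V} {s : ℕ} (h : Good (fun a b => ¬ R a b) U s) :
    Good R U s := by
  obtain ⟨x, hx, y, hy, z, hz, a, b, c, d, g, e⟩ := h
  refine ⟨x, hx, y, hy, z, hz, a, b, by tauto, ⟨g, e.inv, fun x h => ?_, e.card⟩, d⟩
  simpa using e.rel x h

lemma Mt.nn {R : V → V → Prop} {U : Finset V} {s : ℕ} {f : V → V} (h : Mt R U s f) :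
    Mt (fun a b => ¬¬ R a b) U s f :=
  ⟨h.inv, fun x e => by simpa using h.rel x e, h.card⟩

lemma Mt.cut {R : V → V → Prop} {U : Finset V} {s : ℕ} {f : V → V} (h : Mt R U (s + 1) f) {a : V}
    (ha : f a ≠ a) (x y z : V) (k : ∀ w ∈ ({x, y, z} : Finset V), f w = w ∨ w = a ∨ w = f a) :
    ∃ f, Mt R (U \ {x, y, z}) s f := by
  obtain ⟨h1, h2⟩ := h.del ha
  refine ⟨_, h1.mono fun w hw => mem_sdiff.2 ⟨(h1.rel w hw).1, fun e => ?_⟩⟩
  have := (h2 w).1 hw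
  have := k w e
  tauto

lemma Mt.rep {R : V → V → Prop} (sy : ∀ x y, R x y → R y x) {U : Finset V} {s : ℕ} {f : V → V}
    (h : Mt R U (s + 1) f) {a c u : V} (ha : f a ≠ a) (hc : f c = c ∨ c = a ∨ c = f a)
    (hu : f u = u) (cu : c ≠ u) (m1 : c ∈ U) (m2 : u ∈ U) (r : R c u) :
    ∃ f', Mt R U (s + 1) f' ∧ ∀ x, f' x ≠ x ↔ (f x ≠ x ∧ x ≠ a ∧ x ≠ f a) ∨ x = c ∨ x = u := by
  obtain ⟨h1, h2⟩ := h.del ha
  obtain ⟨h3, h4⟩ := h1.add sy (c := c) (d := u) (by_contra fun e => by have := (h2 c).1 e; tauto)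
    (by_contra fun e => ((h2 u).1 e).1 hu) cu m1 m2 r
  exact ⟨_, h3, fun x => by rw [h4, h2]⟩

end Pool.Agent.H.MP_598d44_co
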