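import Mathlib
import Pool.Agent.H.MP_598d44_co.A

set_option autoImplicit false

namespace Pool.Agent.H.MP_598d44_co

open Finset

variable {V : Type} [DecidableEq V] {R : V → V → Prop} {U : Finset V} {s : ℕ} {f g : V → V}

omit [DecidableEq V] in
lemma mv {f : V → V} (h : ∀ x, f (f x) = x) {x : V} (e : f x ≠ x) : f (f x) ≠ f x := by
  rw [h]; exact e.symm

lemma caseA (sy : ∀ x y, R x y → R y x) (hf : Mt R U (s + 1) f)
    (hg : Mt (fun a b => ¬ R a b) U (s + 1) g) {x z : V} (x1 : f x ≠ x) (x2 : g x = x)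
    (x3 : g (f x) = f x) (z1 : g z ≠ z) (z2 : f z = z) (z3 : f (g z) = g z) : Good R U s := by
  have xz : x ≠ z := fun e => x1 (e ▸ z2)
  by_cases r : R x z
  · exact ⟨x, (hf.rel x x1).1, z, (hg.rel z z1).1, g z, (hg.rel _ (mv hg.inv z1)).1, xz, z1.symm,
      .inl ⟨r, (hg.rel z z1).2⟩, hf.cut x1 _ _ _ (by simp [z2, z3]), hg.cut z1 _ _ _ (by simp [x2])⟩
  · exact ⟨f x, (hf.rel _ (mv hf.inv x1)).1, x, (hf.rel x x1).1, z, (hg.rel z z1).1, x1, xz,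
      .inl ⟨sy _ _ (hf.rel x x1).2, r⟩, hf.cut x1 _ _ _ (by simp [z2]),
      hg.cut z1 _ _ _ (by simp [x2, x3])⟩

lemma caseB (sy : ∀ x y, R x y → R y x) (hf : Mt R U (s + 1) f)
    (hg : Mt (fun a b => ¬ R a b) U (s + 1) g) {y : V} (y1 : f y ≠ y) (y2 : g y ≠ y)
    (y3 : g (f y) = f y) (y4 : f (g y) = g y) : Good R U s :=
  ⟨f y, (hf.rel _ (mv hf.inv y1)).1, y, (hf.rel y y1).1, g y, (hg.rel _ (mv hg.inv y2)).1, y1,
    y2.symm, .inl ⟨sy _ _ (hf.rel y y1).2, (hg.rel y y2).2⟩, hf.cut y1 _ _ _ (by simp [y4]),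
    hg.cut y2 _ _ _ (by simp [y3])⟩

lemma caseC (sy : ∀ x y, R x y → R y x) (hf : Mt R U (s + 1) f)
    (hg : Mt (fun a b => ¬ R a b) U (s + 1) g) {y : V} (y1 : f y ≠ y) (y2 : g y ≠ y)
    (y3 : f (g y) ≠ g y) (o : #{x ∈ U | f x ≠ x ∧ g x ≠ x} ≤ 2) : Good R U s := by
  have sy' : ∀ x y, ¬ R x y → ¬ R y x := fun x y a b => a (sy _ _ b)
  have z2 := mv hg.inv y2
  have O : ∀ v, f v ≠ v → g v ≠ v → v = y ∨ v = g y := by
    intro v a b
    by_contra n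
    push Not at n
    have : ({v, y, g y} : Finset V) ⊆ {x ∈ U | f x ≠ x ∧ g x ≠ x} := by
      simp [insert_subset_iff, (hf.rel v a).1, (hf.rel y y1).1, (hf.rel _ y3).1, *]
    have h3 := card_le_card this
    rw [card_eq_three.2 ⟨_, _, _, n.1, n.2, y2.symm, rfl⟩] at h3
    omega
  have xz : f y ≠ g y := fun e => (hg.rel y y2).2 (e ▸ (hf.rel y y1).2)
  have wy : f (g y) ≠ y := fun e => xz (by rw [← hf.inv (g y), e])
  have xw : f y ≠ f (g y) := fun e => y2 (by rw [← hf.inv (g y), ← e, hf.inv])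
  have gx : g (f y) = f y := by_contra fun e => (O _ (mv hf.inv y1) e).elim y1 xz
  have gw : g (f (g y)) = f (g y) := by_contra fun e => (O _ (mv hf.inv y3) e).elim wy y3
  have xu := (hf.rel _ (mv hf.inv y1)).1
  have wu := (hf.rel _ (mv hf.inv y3)).1
  have s1 : 1 ≤ s := by
    have : ({f y, y, g y} : Finset V) ⊆ {x ∈ U | f x ≠ x} := by
      simp [insert_subset_iff, (hf.rel y y1).1, (hf.rel _ y3).1, mv hf.inv y1, *]
    have h3 := card_le_card this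
    rw [card_eq_three.2 ⟨_, _, _, y1, xz, y2.symm, rfl⟩, hf.card] at h3
    omega
  obtain ⟨a, ha, an⟩ : ∃ a ∈ {x ∈ U | g x ≠ x}, a ∉ ({y, g y} : Finset V) :=
    exists_mem_notMem_of_card_lt_card (by have := card_le_two (a := y) (b := g y); rw [hg.card]; omega)
  simp only [mem_insert, mem_singleton, not_or] at an
  obtain ⟨au, a1⟩ := mem_filter.1 ha
  have b1 := mv hg.inv a1
  have bu := (hg.rel _ b1).1
  have by1 : g a ≠ y := fun e => an.2 (by rw [← e, hg.inv])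
  have by2 : g a ≠ g y := fun e => an.1 (by rw [← hg.inv a, e, hg.inv])
  have fa : f a = a := by_contra fun e => (O _ e a1).elim an.1 an.2
  have fb : f (g a) = g a := by_contra fun e => (O _ e b1).elim by1 by2
  have xa : f y ≠ a := fun e => a1 (e ▸ gx)
  have wb : f (g y) ≠ g a := fun e => b1 (e ▸ gw)
  by_cases r1 : R (f y) a
  · exact ⟨f y, xu, a, au, g a, bu, xa, a1.symm, .inl ⟨r1, (hg.rel a a1).2⟩,
      hf.cut y1 _ _ _ (by simp [fa, fb]), hg.cut a1 _ _ _ (by simp [gx])⟩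
  by_cases r2 : R (f (g y)) (g a)
  · exact ⟨f (g y), wu, g a, bu, a, au, wb, a1, .inl ⟨r2, sy' _ _ (hg.rel a a1).2⟩,
      hf.cut y3 _ _ _ (by simp [fa, fb]), hg.cut a1 _ _ _ (by simp [gw])⟩
  refine ⟨y, (hf.rel y y1).1, f y, xu, a, au, y1.symm, xa, .inl ⟨(hf.rel y y1).2, r1⟩,
    hf.cut y1 _ _ _ (by simp [fa]), ?_⟩
  obtain ⟨s, rfl⟩ : ∃ t, s = t + 1 := ⟨s - 1, by omega⟩
  obtain ⟨h1, h2⟩ := hg.del y2
  have a2 := (h2 a).2 ⟨a1, an⟩
  have e : del g y a = g a := if_neg (by tauto)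
  obtain ⟨g', h3, h4⟩ := h1.rep sy' (a := a) (c := g a) (u := f (g y)) a2 (.inr (.inr e.symm))
    (by_contra fun n => ((h2 _).1 n).1 gw) wb.symm bu wu (sy' _ _ r2)
  refine ⟨g', h3.mono fun v hv => mem_sdiff.2 ⟨(h3.rel v hv).1, fun m => ?_⟩⟩
  have := (h4 v).1 hv
  rw [h2] at this
  simp only [mem_insert, mem_singleton] at m
  have wa : f (g y) ≠ a := fun e => a1 (e ▸ gw)
  have xb : f y ≠ g a := fun e => b1 (e ▸ gx)
  rcases m with rfl | rfl | rfl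
  · rcases this with h | h | h
    exacts [h.1.2.1 rfl, by1 h.symm, wy h.symm]
  · rcases this with h | h | h
    exacts [h.1.1 gx, xb h, xw h]
  · rcases this with h | h | h
    exacts [h.2.1 rfl, a1 h.symm, wa h.symm]

lemma caseD (sy : ∀ x y, R x y → R y x) (hf : Mt R U (s + 1) f) {y u : V} (y1 : f y ≠ y)
    (y2 : g y ≠ y) (zu : g y ∈ U) (z2 : g (g y) ≠ g y) (uu : u ∈ U) (u1 : f u = u) (u2 : g u = u)
    (h : R u (f y) ∨ (R u (g y) ∧ f (g y) = g y ∧ g (f y) ≠ f y) ∨ (R u y ∧ g (f y) ≠ f y)) :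
    ∃ f', Mt R U (s + 1) f' ∧
      #{x ∈ U | f' x ≠ x ∧ g x ≠ x} < #{x ∈ U | f x ≠ x ∧ g x ≠ x} := by
  have x1 := mv hf.inv y1
  have xu := (hf.rel _ x1).1
  have yu := (hf.rel _ y1).1
  have my : y ∈ {x ∈ U | f x ≠ x ∧ g x ≠ x} := mem_filter.2 ⟨yu, y1, y2⟩
  rcases h with r | ⟨r, p, q⟩ | ⟨r, q⟩
  · obtain ⟨f', a, b⟩ := hf.rep sy y1 (.inr (.inr rfl)) u1 (fun e => x1 (e ▸ u1)) xu uu (sy _ _ r)
    refine ⟨f', a, (card_le_card fun v hv => ?_).trans_lt (card_erase_lt_of_mem my)⟩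
    simp only [mem_filter, mem_erase, b] at hv ⊢
    grind
  · obtain ⟨f', a, b⟩ := hf.rep sy y1 (.inl p) u1 (fun e => z2 (e ▸ u2)) zu uu (sy _ _ r)
    have mx : f y ∈ ({x ∈ U | f x ≠ x ∧ g x ≠ x}).erase y :=
      mem_erase.2 ⟨y1, mem_filter.2 ⟨xu, x1, q⟩⟩
    have : {x ∈ U | f' x ≠ x ∧ g x ≠ x} ⊆
        insert (g y) ((({x ∈ U | f x ≠ x ∧ g x ≠ x}).erase y).erase (f y)) := by
      intro v hv
      simp only [mem_filter, mem_erase, mem_insert, b] at hv ⊢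
      grind
    have := (card_le_card this).trans (card_insert_le _ _)
    have := card_erase_lt_of_mem my
    have := card_erase_lt_of_mem mx
    exact ⟨f', a, by omega⟩
  · obtain ⟨f', a, b⟩ := hf.rep sy y1 (.inr (.inl rfl)) u1 (fun e => y1 (e ▸ u1)) yu uu (sy _ _ r)
    have mx : f y ∈ {x ∈ U | f x ≠ x ∧ g x ≠ x} := mem_filter.2 ⟨xu, x1, q⟩
    refine ⟨f', a, (card_le_card fun v hv => ?_).trans_lt (card_erase_lt_of_mem mx)⟩
    simp only [mem_filter, mem_erase, b] at hv ⊢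
    grind

theorem step (sy : ∀ x y, R x y → R y x) (hU : 4 * (s + 1) ≤ #U + 2) : ∀ n f g,
    #{x ∈ U | f x ≠ x ∧ g x ≠ x} = n → Mt R U (s + 1) f → Mt (fun a b => ¬ R a b) U (s + 1) g →
    Good R U s := by
  intro n
  induction n using Nat.strong_induction_on with
  | _ n ih =>
  intro f g hn hf hg
  have sy' : ∀ x y, ¬ R x y → ¬ R y x := fun x y a b => a (sy _ _ b)
  have cm : ∀ f g : V → V, {x ∈ U | f x ≠ x ∧ g x ≠ x} = {x ∈ U | g x ≠ x ∧ f x ≠ x} :=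
    fun f g => by simp only [and_comm]
  by_cases h0 : ∃ y, f y ≠ y ∧ g y ≠ y
  swap
  · push Not at h0
    obtain ⟨x, hx⟩ := card_pos.1 (show 0 < #{x ∈ U | f x ≠ x} by rw [hf.card]; omega)
    obtain ⟨z, hz⟩ := card_pos.1 (show 0 < #{x ∈ U | g x ≠ x} by rw [hg.card]; omega)
    have x1 := (mem_filter.1 hx).2
    have z1 := (mem_filter.1 hz).2
    exact caseA sy hf hg x1 (h0 _ x1) (h0 _ (mv hf.inv x1)) z1 (by_contra fun e => z1 (h0 _ e))
      (by_contra fun e => mv hg.inv z1 (h0 _ e))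
  obtain ⟨y, y1, y2⟩ := h0
  by_cases hb : g (f y) = f y ∧ f (g y) = g y
  · exact caseB sy hf hg y1 y2 hb.1 hb.2
  by_cases hu : ∃ u ∈ U, f u = u ∧ g u = u
  · obtain ⟨u, uu, u1, u2⟩ := hu
    by_cases h : R u (f y) ∨ (R u (g y) ∧ f (g y) = g y ∧ g (f y) ≠ f y) ∨ (R u y ∧ g (f y) ≠ f y)
    · obtain ⟨f', a, b⟩ := caseD sy hf y1 y2 (hg.rel _ (mv hg.inv y2)).1 (mv hg.inv y2) uu u1 u2 h
      exact ih _ (hn ▸ b) f' g rfl a hg
    · obtain ⟨g', a, b⟩ := caseD (g := f) sy' hg y2 y1 (hf.rel _ (mv hf.inv y1)).1 (mv hf.inv y1)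
        uu u2 u1 (by tauto)
      rw [cm g' f, cm g f] at b
      exact ih _ (hn ▸ b) f g' rfl hf a
  have o : #{x ∈ U | f x ≠ x ∧ g x ≠ x} ≤ 2 := by
    have a := card_union_add_card_inter {x ∈ U | f x ≠ x} {x ∈ U | g x ≠ x}
    rw [← filter_and, hf.card, hg.card] at a
    have b : U ⊆ {x ∈ U | f x ≠ x} ∪ {x ∈ U | g x ≠ x} := by
      intro x hx
      simp only [mem_union, mem_filter]
      by_contra c
      exact hu ⟨x, hx, by tauto⟩
    have := card_le_card b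
    omega
  by_cases h : f (g y) = g y
  · exact (caseC sy' hg hf.nn y2 y1 (fun e => hb ⟨e, h⟩) (cm f g ▸ o)).neg
  · exact caseC sy hf hg y1 y2 h o

/-- disjoint two-coloured cherries. -/
theorem pack (sy : ∀ x y, R x y → R y x) (s : ℕ) : ∀ (U : Finset V) (f g : V → V),
    4 * s ≤ #U + 2 → Mt R U s f → Mt (fun a b => ¬ R a b) U s g →
    ∃ x y z : Fin s → V, (∀ i, x i ∈ U ∧ y i ∈ U ∧ z i ∈ U ∧ x i ≠ y i ∧ y i ≠ z i ∧
      R (x i) (y i) ∧ ¬ R (y i) (z i)) ∧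
      ∀ i j, i ≠ j → Disjoint ({x i, y i, z i} : Finset V) {x j, y j, z j} := by
  induction s with
  | zero => exact fun U f _ _ _ _ => ⟨Fin.elim0, Fin.elim0, Fin.elim0, fun i => i.elim0, fun i => i.elim0⟩
  | succ s ih =>
    intro U f g hU hf hg
    have : ∃ x ∈ U, ∃ y ∈ U, ∃ z ∈ U, x ≠ y ∧ y ≠ z ∧ R x y ∧ ¬ R y z ∧
        (∃ f, Mt R (U \ {x, y, z}) s f) ∧ ∃ g, Mt (fun a b => ¬ R a b) (U \ {x, y, z}) s g := by
      obtain ⟨x, hx, y, hy, z, hz, a, b, ⟨c, c'⟩ | ⟨c, c'⟩, d⟩ := step sy hU _ f g rfl hf hg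
      · exact ⟨x, hx, y, hy, z, hz, a, b, c, c', d⟩
      · refine ⟨z, hz, y, hy, x, hx, b.symm, a.symm, sy _ _ c', fun e => c (sy _ _ e), ?_⟩
        rwa [show ({z, y, x} : Finset V) = {x, y, z} by ext; simp; tauto]
    obtain ⟨x, hx, y, hy, z, hz, a, b, c, c', ⟨f', hf'⟩, g', hg'⟩ := this
    obtain ⟨X, Y, Z, p, q⟩ := ih (U \ {x, y, z}) f' g' (by
      have := le_card_sdiff {x, y, z} U
      have := card_le_three (a := x) (b := y) (c := z)
      omega) hf' hg'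
    have dj : ∀ j, Disjoint ({x, y, z} : Finset V) {X j, Y j, Z j} := fun j =>
      disjoint_sdiff.mono_right (show ({X j, Y j, Z j} : Finset V) ⊆ U \ {x, y, z} from
        insert_subset (p j).1 (insert_subset (p j).2.1 (singleton_subset_iff.2 (p j).2.2.1)))
    refine ⟨Fin.cons x X, Fin.cons y Y, Fin.cons z Z, fun i => ?_, fun i j h => ?_⟩
    · refine Fin.cases ⟨hx, hy, hz, a, b, c, c'⟩ (fun i => ?_) i
      obtain ⟨p1, p2, p3, p4⟩ := p i
      exact ⟨(mem_sdiff.1 p1).1, (mem_sdiff.1 p2).1, (mem_sdiff.1 p3).1, p4⟩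
    · induction i using Fin.cases <;> induction j using Fin.cases
      · exact absurd rfl h
      · exact dj _
      · exact (dj _).symm
      · exact q _ _ fun e => h (congrArg Fin.succ e)

end Pool.Agent.H.MP_598d44_co
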