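import Mathlib
import Pool.Agent.H.MP_598d44_co.B
import Pool.Agent.H.MP_2e63e7_co.C

set_option autoImplicit false

namespace Pool.Agent.H.MP_598d44_co

open Finset SimpleGraph Pool.Agent.H.MP_2e63e7_co Pool.Agent.Lib.helper5.PTree

lemma sp0 {V : Type} (c : V → Fin 3) (r : Fin 3 → V) (hr : ∀ i, c (r i) = i) (W : Finset V) :
    ∃ (ι : Type) (_ : Finite ι) (root : ι) (par : ι → ι) (rk : ι → ℕ) (L : V → ι) (κ : ι → Fin 3),
      (∀ t, t ≠ root → rk (par t) < rk t) ∧ par root = root ∧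
      Set.InjOn L (W ∪ Set.range r) ∧ (∀ v, L v ≠ root ∧ κ (L v) = c v) ∧
      (∀ t, t ≠ root → par t ≠ root → κ (par t) = κ t) ∧
      {u | u ≠ root ∧ par u = root}.ncard = 3 ∧
      (∀ v ∈ (W : Set V) ∪ Set.range r, ∀ u, u ≠ root → par u ≠ L v) ∧
      ∀ t, t ≠ root → (∀ v ∈ (W : Set V) ∪ Set.range r, L v ≠ t) →
        {u | u ≠ root ∧ par u = t}.ncard = 2 := by
  classical
  induction W using Finset.induction_on with
  | empty =>
    refine ⟨Option (Fin 3), inferInstance, none, fun _ => none, fun o => o.elim 0 fun _ => 1,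
      fun v => some (c v), fun o => o.elim 0 id, by decide, rfl, ?_, by simp, by simp, ?_, by simp, ?_⟩
    · rintro _ (h | ⟨i, rfl⟩) _ (h' | ⟨j, rfl⟩) e
      any_goals simp at h
      any_goals simp at h'
      simp only [hr, Option.some.injEq] at e
      rw [e]
    · have : {u : Option (Fin 3) | u ≠ none ∧ (none : Option (Fin 3)) = none} = Set.range some := by
        ext (_ | u) <;> simp
      rw [this, Set.ncard_range_of_injective (Option.some_injective _)]
      simp
    · rintro (_ | t) h h'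
      · exact absurd rfl h
      · exact absurd (congrArg some (hr t)) (h' (r t) (.inr ⟨t, rfl⟩))
  | insert v W hv ih =>
    by_cases e : v ∈ Set.range r
    · rwa [coe_insert, Set.insert_union, Set.insert_eq_of_mem (Set.mem_union_right _ e)]
    obtain ⟨ι, _, root, par, rk, L, κ, p1, p2, p3, p4, p5, p6, p7, p8⟩ := ih
    rw [coe_insert, Set.insert_union]
    set A := (W : Set V) ∪ Set.range r
    have va : v ∉ A := fun h => h.elim hv e
    have ra : r (c v) ∈ A := .inr ⟨_, rfl⟩
    have ch : ∀ t, t ≠ L (r (c v)) → {u : ι ⊕ Bool | u ≠ .inl root ∧ Sum.elim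
        (fun t => Sum.inl (par t)) (fun _ => Sum.inl (L (r (c v)))) u = (Sum.inl t : ι ⊕ Bool)}.ncard =
        {u | u ≠ root ∧ par u = t}.ncard := by
      intro t ht
      refine Eq.trans (congrArg Set.ncard ?_)
        (Set.ncard_image_of_injective _ (Sum.inl_injective (β := Bool)))
      ext (u | u) <;> simp [ht.symm]
    refine ⟨ι ⊕ Bool, inferInstance, .inl root,
      Sum.elim (fun t => .inl (par t)) fun _ => .inl (L (r (c v))),
      Sum.elim rk fun _ => rk (L (r (c v))) + 1,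
      fun x => if x = v then .inr true else if x = r (c v) then .inr false else .inl (L x),
      Sum.elim κ fun _ => c v, ?_, by simp [p2], ?_, fun x => ?_, ?_, ?_, ?_, ?_⟩
    · rintro (t | t) h
      · exact p1 t fun e => h (by rw [e])
      · simp
    · intro x hx y hy h
      beta_reduce at h
      split_ifs at h with a b b c' c' d d <;> simp_all
      exact p3 hx hy h
    · beta_reduce
      split_ifs with a b
      · simp [a]
      · simp [b, hr]
      · simpa using p4 x
    · rintro (t | t) h h'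
      · exact p5 t (fun e => h (by rw [e])) fun e => h' (by simp [e])
      · simp [p4, hr]
    · rw [ch root (p4 _).1.symm, p6]
    · intro x hx u hu
      beta_reduce
      split_ifs with a b
      · cases u <;> simp
      · cases u <;> simp
      · have xa : x ∈ A := hx.resolve_left a
        cases u with
        | inl u => simpa using p7 x xa u fun e => hu (by rw [e])
        | inr u => simpa using fun e => b (p3 ra xa e).symm
    · rintro (t | t) h h'
      · by_cases q : t = L (r (c v))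
        · have : {u : ι ⊕ Bool | u ≠ .inl root ∧ Sum.elim (fun t => Sum.inl (par t))
              (fun _ => Sum.inl (L (r (c v)))) u = (Sum.inl t : ι ⊕ Bool)} = Set.range Sum.inr := by
            ext (u | u)
            · simpa [q] using p7 _ ra u
            · simp [q]
          rw [this, Set.ncard_range_of_injective Sum.inr_injective]
          simp
        · rw [ch t q]
          refine p8 t (fun e => h (by rw [e])) fun x hx e => ?_
          have x1 : x ≠ v := fun e => va (e ▸ hx)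
          have x2 : x ≠ r (c v) := fun e' => q (by rw [← e, e'])
          exact h' x (.inr hx) (by simp [x1, x2, e])
      · cases t
        · have : r (c v) ≠ v := fun e => va (e ▸ ra)
          exact absurd (by simp [this]) (h' _ (.inr ra))
        · exact absurd (by simp) (h' v (.inl rfl))

theorem spider {V : Type} [Finite V] (c : V → Fin 3) (hc : Function.Surjective c) :
    ∃ (ι : Type) (_ : Finite ι) (T : SimpleGraph ι) (L : V → ι), T.IsTree ∧
      (∀ w, (T.neighborSet w).ncard = 1 ∨ (T.neighborSet w).ncard = 3) ∧ Function.Injective L ∧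
      (∀ w, (T.neighborSet w).ncard = 1 ↔ ∃ v, L v = w) ∧
      ∀ u w, T.Adj u w → ∃ i, (∀ v, (T.deleteEdges {s(u, w)}).Reachable u (L v) → c v = i) ∨
        ∀ v, (T.deleteEdges {s(u, w)}).Reachable w (L v) → c v = i := by
  have := Fintype.ofFinite V
  choose r hr using hc
  obtain ⟨ι, _, root, par, rk, L, κ, p1, p2, p3, p4, p5, p6, p7, p8⟩ := sp0 c r hr univ
  simp only [coe_univ, Set.univ_union, Set.mem_univ, forall_const, Set.injOn_univ] at p3 p7 p8
  have ne : ∀ u, u ≠ root → par u ≠ u := fun u h e => (p1 u h).ne (by rw [e])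
  have ad : ∀ t u, (PT root par).Adj t u ↔ (t ≠ root ∧ par t = u) ∨ (u ≠ root ∧ par u = t) := by
    intro t u
    refine ⟨fun h => h.2, fun h => ⟨?_, h⟩⟩
    rintro rfl
    exact h.elim (fun h => ne _ h.1 h.2) fun h => ne _ h.1 h.2
  have d0 : ((PT root par).neighborSet root).ncard = 3 := by
    rw [← p6]; congr 1; ext u; simp [ad]
  have d1 : ∀ t, t ≠ root → ((PT root par).neighborSet t).ncard =
      {u | u ≠ root ∧ par u = t}.ncard + 1 := by
    intro t ht
    rw [← Set.ncard_insert_of_notMem (a := par t)]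
    · congr 1; ext u; simp [ad, ht, eq_comm]
    · rintro ⟨a, b⟩
      have := p1 t ht
      have := p1 _ a
      rw [b] at this
      omega
  have d2 : ∀ v, ((PT root par).neighborSet (L v)).ncard = 1 := by
    intro v
    have : {u | u ≠ root ∧ par u = L v} = ∅ := Set.eq_empty_of_forall_notMem fun u h => p7 v u h.1 h.2
    rw [d1 _ (p4 v).1, this, Set.ncard_empty]
  have d3 : ∀ w, (¬ ∃ v, L v = w) → ((PT root par).neighborSet w).ncard = 3 := by
    intro w h
    by_cases e : w = root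
    · rw [e, d0]
    · rw [d1 w e, p8 w e fun v e => h ⟨v, e⟩]
  have sd : ∀ t, t ≠ root → ∀ z, ((PT root par).deleteEdges {s(t, par t)}).Reachable t z →
      κ z = κ t := by
    intro t ht z h
    have := (reachable_iff_reflTransGen ..).1 h
    suffices z ≠ root ∧ κ z = κ t ∧ ∃ n, par^[n] z = t from this.2.1
    clear h
    induction this with
    | refl => exact ⟨ht, rfl, 0, rfl⟩
    | @tail z z' _ q ih =>
      obtain ⟨a, b, n, c⟩ := ih
      obtain ⟨q1, q2⟩ := deleteEdges_adj.1 q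
      rcases (ad _ _).1 q1 with ⟨-, rfl⟩ | ⟨q0, rfl⟩
      · cases n with
        | zero => exact absurd (by rw [← c]; rfl) q2
        | succ n =>
          have x : par z ≠ root := fun e => ht (by
            rw [← c, Function.iterate_succ_apply, e, Function.iterate_fixed p2])
          exact ⟨x, (p5 z a x).trans b, n, c⟩
      · exact ⟨q0, (p5 z' q0 a).symm.trans b, n + 1, c⟩
  refine ⟨ι, inferInstance, PT root par, L, isTree rk p1, fun w => ?_, p3, fun w => ⟨fun h => ?_, ?_⟩,
    fun u w h => ?_⟩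
  · by_cases h : ∃ v, L v = w
    · obtain ⟨v, rfl⟩ := h
      exact .inl (d2 v)
    · exact .inr (d3 w h)
  · by_contra e
    have := d3 w e
    omega
  · rintro ⟨v, rfl⟩
    exact d2 v
  · rcases (ad _ _).1 h with ⟨a, rfl⟩ | ⟨a, rfl⟩
    · exact ⟨κ u, .inl fun v e => (p4 v).2.symm.trans (sd u a _ e)⟩
    · exact ⟨κ w, .inr fun v e => (p4 v).2.symm.trans (sd w a _ (by rwa [Sym2.eq_swap]))⟩

lemma cnt {n m : ℕ} (a : Fin m → (⊤ : SimpleGraph (Fin n)).edgeSet)
    (h : ∀ i j, i ≠ j → a i ≠ a j ∧ ¬ (⊤ : SimpleGraph (Fin n)).lineGraph.Adj (a i) (a j))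
    (Y : Finset (Fin n)) (r : ℕ) (hY : ∀ i, r ≤ #{x ∈ Y | x ∈ (a i).1}) : m * r ≤ #Y := by
  have := card_biUnion (s := univ) (t := fun i => {x ∈ Y | x ∈ (a i).1}) fun i _ j _ e =>
    Finset.disjoint_left.2 fun x hx hy => (h i j e).2 (lineGraph_adj_iff_exists.2
      ⟨(h i j e).1, x, (mem_filter.1 hx).2, (mem_filter.1 hy).2⟩)
  calc m * r = ∑ i : Fin m, r := by simp
    _ ≤ _ := sum_le_sum fun i _ => hY i
    _ = _ := this.symm
    _ ≤ _ := card_le_card (biUnion_subset.2 fun i _ => filter_subset _ _)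

lemma col (n : ℕ) (hn : 3 ≤ n) : ∃ c : (⊤ : SimpleGraph (Fin n)).edgeSet → Fin 3,
    Function.Surjective c ∧ ∀ i (m : ℕ) (a : Fin m → (⊤ : SimpleGraph (Fin n)).edgeSet),
      (∀ j, c (a j) = i) →
      (∀ i j, i ≠ j → a i ≠ a j ∧ ¬ (⊤ : SimpleGraph (Fin n)).lineGraph.Adj (a i) (a j)) →
      m ≤ (n + 2) / 4 := by
  classical
  have two : ∀ (Y : Finset (Fin n)) (e : (⊤ : SimpleGraph (Fin n)).edgeSet), (∀ x ∈ e.1, x ∈ Y) →
      2 ≤ #{x ∈ Y | x ∈ e.1} := by
    rintro Y ⟨⟨x, y⟩, e⟩ h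
    exact one_lt_card.2 ⟨x, mem_filter.2 ⟨h x (by simp), by simp⟩, y,
      mem_filter.2 ⟨h y (by simp), by simp⟩, e⟩
  rcases hn.eq_or_lt with rfl | hn
  · refine ⟨fun e => if 0 ∉ e.1 then 0 else if 1 ∉ e.1 then 1 else 2, fun i => ?_,
      fun i m a _ h => ?_⟩
    · fin_cases i
      · exact ⟨⟨s(1, 2), by simp⟩, by simp⟩
      · exact ⟨⟨s(0, 2), by simp⟩, by simp⟩
      · exact ⟨⟨s(0, 1), by simp⟩, by simp⟩
    · have := cnt a h univ 2 fun i => two _ _ fun _ _ => mem_univ _
      simp at this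
      omega
  obtain ⟨s, hs⟩ : ∃ s, s = (n + 2) / 4 := ⟨_, rfl⟩
  rw [← hs]
  have cd : ∀ p q : ℕ, #{x : Fin n | p ≤ x.val ∧ x.val < q} ≤ q - p := by
    intro p q
    rw [← Nat.card_Ico]
    exact card_le_card_of_injOn Fin.val (fun x hx => by simpa using hx) Fin.val_injective.injOn
  refine ⟨fun e => if ∃ x ∈ e.1, x.val < s then 0 else if ∃ x ∈ e.1, x.val < 2 * s then 1 else 2,
    fun i => ?_, fun i m a h1 h => ?_⟩
  · fin_cases i
    · exact ⟨⟨s(⟨0, by omega⟩, ⟨1, by omega⟩), by simp⟩, if_pos ⟨⟨0, by omega⟩, by simp, by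
        simp only; omega⟩⟩
    · refine ⟨⟨s(⟨s, by omega⟩, ⟨s + 1, by omega⟩), by simp⟩, ?_⟩
      beta_reduce
      rw [if_neg (by simp), if_pos ⟨⟨s, by omega⟩, by simp, by simp only; omega⟩]
      rfl
    · refine ⟨⟨s(⟨2 * s, by omega⟩, ⟨2 * s + 1, by omega⟩), by simp⟩, ?_⟩
      beta_reduce
      rw [if_neg (by simp; omega), if_neg (by simp)]
      rfl
  · fin_cases i
    · have := (cnt a h _ 1 fun j => ?_).trans (cd 0 s)
      · omega
      have := h1 j
      beta_reduce at this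
      split_ifs at this with p q
      · obtain ⟨x, x1, x2⟩ := p
        exact card_pos.2 ⟨x, by simp [x1, x2]⟩
      all_goals simp at this
    · have := (cnt a h _ 1 fun j => ?_).trans (cd s (2 * s))
      · omega
      have := h1 j
      beta_reduce at this
      split_ifs at this with p q
      · simp at this
      · obtain ⟨x, x1, x2⟩ := q
        exact card_pos.2 ⟨x, by simpa [x1, x2] using not_lt.1 fun e => p ⟨x, x1, e⟩⟩
      · simp at this
    · have := (cnt a h _ 2 fun j => two _ _ fun x hx => ?_).trans (cd (2 * s) n)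
      · omega
      have := h1 j
      beta_reduce at this
      split_ifs at this with p q
      · simp at this
      · simp at this
      · simpa using not_lt.1 fun e => q ⟨x, hx, e⟩

theorem lower {n : ℕ} (hn : 3 ≤ n) {ι : Type} [Finite ι] {T : SimpleGraph ι}
    (L : (⊤ : SimpleGraph (Fin n)).edgeSet → ι) (hT : T.IsTree)
    (h3 : ∀ w, (T.neighborSet w).ncard = 1 ∨ (T.neighborSet w).ncard = 3)
    (hL : Function.Injective L) (h1 : ∀ w, (T.neighborSet w).ncard = 1 ↔ ∃ v, L v = w) :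
    ∃ u w, T.Adj u w ∧ ∃ (a b : Fin ((n + 2) / 4) → (⊤ : SimpleGraph (Fin n)).edgeSet),
      (∀ i, (⊤ : SimpleGraph (Fin n)).lineGraph.Adj (a i) (b i) ∧
        (T.deleteEdges {s(u, w)}).Reachable u (L (a i)) ∧
        (T.deleteEdges {s(u, w)}).Reachable w (L (b i))) ∧
      (∀ i j, i ≠ j → a i ≠ a j ∧ b i ≠ b j ∧
        ¬ (⊤ : SimpleGraph (Fin n)).lineGraph.Adj (a i) (a j) ∧
        ¬ (⊤ : SimpleGraph (Fin n)).lineGraph.Adj (b i) (b j) ∧
        ¬ (⊤ : SimpleGraph (Fin n)).lineGraph.Adj (a i) (b j)) := by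
  classical
  have := Fintype.ofFinite ι
  obtain ⟨s, hs⟩ : ∃ s, s = (n + 2) / 4 := ⟨_, rfl⟩
  rw [← hs]
  have hU : 4 * s ≤ #(univ : Finset (Fin n)) + 2 := by simp; omega
  let R : ι → ι → Fin n → Fin n → Prop := fun u w x y =>
    ∃ h : x ≠ y, (T.deleteEdges {s(u, w)}).Reachable u (L ⟨s(x, y), h⟩)
  have sy : ∀ u w x y, R u w x y → R u w y x := fun u w x y ⟨h, r⟩ =>
    ⟨h.symm, by simpa only [Sym2.eq_swap (a := y)] using r⟩
  have ot : ∀ u w x y, x ≠ y → ¬ R u w x y → R w u x y := fun u w x y h r =>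
    ⟨h, (s_all hT u w _).resolve_left fun e => r ⟨h, e⟩⟩
  have ex : ∀ u w x y, T.Adj u w → R w u x y → ¬ R u w x y := fun u w x y e ⟨_, r⟩ ⟨_, r'⟩ =>
    s_br hT e (r'.trans (by rw [Sym2.eq_swap]; exact r.symm))
  have im : ∀ {P Q : Fin n → Fin n → Prop} {f}, Mt P univ s f → (∀ x y, x ≠ y → P x y → Q x y) →
      Mt Q univ s f := fun h k =>
    ⟨h.inv, fun x e => ⟨mem_univ _, k _ _ e.symm (h.rel x e).2⟩, h.card⟩
  have nz : ∀ {P : Fin n → Fin n → Prop} {f}, Mt P univ s f → ∃ x y, x ≠ y ∧ P x y := by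
    intro P f h
    obtain ⟨x, hx⟩ := card_pos.1 (show 0 < #{x ∈ univ | f x ≠ x} by rw [h.card]; omega)
    exact ⟨x, f x, (mem_filter.1 hx).2.symm, (h.rel x (mem_filter.1 hx).2).2⟩
  have tri : ∀ P Q : Fin n → Fin n → Prop, (∀ x y, P x y → P y x) → (∀ x y, Q x y → Q y x) →
      ∃ f, Mt P univ s f ∨ Mt Q univ s f ∨ Mt (fun x y => ¬ P x y ∧ ¬ Q x y) univ s f := by
    intro P Q p q
    obtain ⟨i, f, h⟩ := ram (fun x y => if P x y then 0 else if Q x y then 1 else 2) (fun x y => by
      rw [show P x y = P y x from propext ⟨p _ _, p _ _⟩,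
        show Q x y = Q y x from propext ⟨q _ _, q _ _⟩]) s univ hU
    refine ⟨f, ?_⟩
    fin_cases i
    · refine .inl (im h fun x y _ e => ?_)
      split_ifs at e with a b
      exacts [a, absurd e (by decide), absurd e (by decide)]
    · refine .inr (.inl (im h fun x y _ e => ?_))
      split_ifs at e with a b
      exacts [absurd e (by decide), b, absurd e (by decide)]
    · refine .inr (.inr (im h fun x y _ e => ?_))
      split_ifs at e with a b
      exacts [absurd e (by decide), absurd e (by decide), ⟨a, b⟩]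
  let Y : ι → ι → Finset ι := fun u w => {z | (T.deleteEdges {s(u, w)}).Reachable u z}
  let e0 : (⊤ : SimpleGraph (Fin n)).edgeSet := ⟨s(⟨0, by omega⟩, ⟨1, by omega⟩), by simp⟩
  have ne : (univ.filter fun p : ι × ι => T.Adj p.1 p.2 ∧ ∃ f, Mt (R p.1 p.2) univ s f).Nonempty := by
    obtain ⟨x, e⟩ := Set.nonempty_of_ncard_ne_zero (show (T.neighborSet (L e0)).ncard ≠ 0 by
      rw [(h1 _).2 ⟨e0, rfl⟩]; omega)
    obtain ⟨f, h | h | h⟩ := tri _ _ (sy (L e0) x) (sy x (L e0))
    · exact ⟨(L e0, x), mem_filter.2 ⟨mem_univ _, e, f, h⟩⟩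
    · exact ⟨(x, L e0), mem_filter.2 ⟨mem_univ _, e.symm, f, h⟩⟩
    · obtain ⟨a, b, c, d⟩ := nz h
      exact absurd (ot _ _ _ _ c d.1) d.2
  obtain ⟨⟨u, w⟩, m1, m2⟩ := exists_min_image _ (fun p : ι × ι => #(Y p.1 p.2)) ne
  obtain ⟨-, e, f, hf⟩ := mem_filter.1 m1
  simp only at e hf
  have sm : ∀ x, T.Adj u x → x ≠ w → ∀ f, ¬ Mt (R x u) univ s f := by
    intro x x1 x2 f q
    have := m2 (x, u) (mem_filter.2 ⟨mem_univ _, x1.symm, f, q⟩)
    refine absurd this (not_le.2 (card_lt_card ((ssubset_iff_of_subset ?_).2 ⟨u, ?_, ?_⟩)))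
    · intro z hz
      simp only [Y, mem_filter, mem_univ, true_and] at hz ⊢
      exact s_sub hT x1 x2 hz
    · simp [Y]
    · simpa [Y] using s_br hT x1.symm
  have big : ∃ g, Mt (R w u) univ s g := by
    rcases h3 u with d | d
    · obtain ⟨w', hw⟩ := Set.ncard_eq_one.1 d
      obtain ⟨⟨⟨p, q⟩, pq⟩, hv⟩ := (h1 u).1 d
      have one : ∀ x y, R u w x y → s(x, y) = s(p, q) := by
        rintro x y ⟨h, r⟩
        rcases s_split r with r | ⟨z, z1, z2, -⟩
        · exact congrArg Subtype.val (hL (r.trans hv.symm))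
        · have a : z ∈ T.neighborSet u := z1
          have b : w ∈ T.neighborSet u := e
          rw [hw] at a b
          exact absurd (a.trans b.symm) z2
      have s1 : s = 0 + 1 := by
        have : {x ∈ (univ : Finset (Fin n)) | f x ≠ x} ⊆ {p, q} := fun x hx => by
          have := one _ _ (hf.rel x (mem_filter.1 hx).2).2
          simp only [Sym2.eq_iff, mem_insert, mem_singleton] at this ⊢
          tauto
        have := (card_le_card this).trans card_le_two
        rw [hf.card] at this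
        omega
      obtain ⟨z, -, hz⟩ : ∃ z ∈ univ, z ∉ ({p, q} : Finset (Fin n)) :=
        exists_mem_notMem_of_card_lt_card (by have := card_le_two (a := p) (b := q); simp; omega)
      simp only [mem_insert, mem_singleton, not_or] at hz
      rw [s1]
      exact ⟨_, (Mt.add (f := id) (sy w u) ⟨fun _ => rfl, fun x h => absurd rfl h, by simp⟩ rfl rfl
        hz.1 (mem_univ _) (mem_univ _) (ot _ _ _ _ hz.1 fun r => by
          have := one _ _ r
          simp [hz.1, hz.2] at this)).1⟩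
    · have : (T.neighborSet u \ {w}).ncard = 2 := by
        rw [Set.ncard_sdiff_singleton_of_mem (show w ∈ T.neighborSet u from e), d]
      obtain ⟨x1, x2, -, hx⟩ := Set.ncard_eq_two.1 this
      have a1 : x1 ∈ T.neighborSet u \ {w} := by rw [hx]; simp
      have a2 : x2 ∈ T.neighborSet u \ {w} := by rw [hx]; simp
      obtain ⟨g, h | h | h⟩ := tri _ _ (sy x1 u) (sy x2 u)
      · exact absurd h (sm x1 a1.1 a1.2 g)
      · exact absurd h (sm x2 a2.1 a2.2 g)
      refine ⟨g, im h fun x y n k => ot _ _ _ _ n fun ⟨_, r⟩ => ?_⟩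
      rcases s_split r with r | ⟨z, z1, z2, z3⟩
      · have := (h1 u).2 ⟨_, r⟩
        omega
      · have : z ∈ T.neighborSet u \ {w} := ⟨z1, z2⟩
        rw [hx] at this
        rcases this with rfl | rfl
        exacts [k.1 ⟨n, z3⟩, k.2 ⟨n, z3⟩]
  obtain ⟨g, hg⟩ := big
  obtain ⟨x, y, z, p, q⟩ := pack (sy u w) s univ f g hU hf (im hg fun x y _ => ex _ _ _ _ e)
  have k : ∀ i j, i ≠ j → ∀ a b : (⊤ : SimpleGraph (Fin n)).edgeSet,
      (∀ v ∈ a.1, v ∈ ({x i, y i, z i} : Finset (Fin n))) →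
      (∀ v ∈ b.1, v ∈ ({x j, y j, z j} : Finset (Fin n))) →
      a ≠ b ∧ ¬ (⊤ : SimpleGraph (Fin n)).lineGraph.Adj a b := by
    intro i j h a b ha hb
    have := Finset.disjoint_left.1 (q i j h)
    refine ⟨fun r => this (ha _ (Sym2.out_fst_mem _)) (hb _ (r ▸ Sym2.out_fst_mem _)), fun r => ?_⟩
    obtain ⟨-, v, v1, v2⟩ := lineGraph_adj_iff_exists.1 r
    exact this (ha v v1) (hb v v2)
  refine ⟨u, w, e, fun i => ⟨s(x i, y i), (p i).2.2.2.1⟩, fun i => ⟨s(y i, z i), (p i).2.2.2.2.1⟩,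
    fun i => ?_, fun i j h => ?_⟩
  · obtain ⟨-, -, -, a, b, ⟨_, c⟩, d⟩ := p i
    obtain ⟨_, d'⟩ := ot _ _ _ _ b d
    refine ⟨lineGraph_adj_iff_exists.2 ⟨fun r => d ⟨b, (congrArg (fun e =>
      (T.deleteEdges {s(u, w)}).Reachable u (L e)) r).mp c⟩, y i, by simp, by simp⟩, c, ?_⟩
    rwa [Sym2.eq_swap (a := u)]
  · exact ⟨(k i j h _ _ (by simp) (by simp)).1, (k i j h _ _ (by simp) (by simp)).1,
      (k i j h _ _ (by simp) (by simp)).2, (k i j h _ _ (by simp) (by simp)).2,
      (k i j h _ _ (by simp) (by simp)).2⟩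

end Pool.Agent.H.MP_598d44_co
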